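import Pool.Agent.H257R3.SI.Stubs

/-!
# A3: down-sets are negatively correlated with every coordinate
-/

namespace Pool.Agent.H680R3

open Pool.Agent.H257R3.SI

namespace A3h

variable {V : Type} [Fintype V]

theorem wt_nonneg {ρ : ℝ} (h0 : 0 ≤ ρ) (h1 : ρ ≤ 1) (F : V → Bool) : 0 ≤ wt ρ F := by
  unfold wt
  refine Finset.prod_nonneg fun v _ => ?_
  split
  · exact h0
  · linarith

variable [DecidableEq V]

theorem Ex_mono {ρ : ℝ} (h0 : 0 ≤ ρ) (h1 : ρ ≤ 1) {g g' : (V → Bool) → ℝ}
    (h : ∀ F, g F ≤ g' F) : Ex ρ g ≤ Ex ρ g' := by
  unfold Ex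
  exact Finset.sum_le_sum fun F _ => mul_le_mul_of_nonneg_left (h F) (wt_nonneg h0 h1 F)

theorem Ex_add (ρ : ℝ) (g g' : (V → Bool) → ℝ) :
    Ex ρ (fun F => g F + g' F) = Ex ρ g + Ex ρ g' := by
  unfold Ex
  rw [← Finset.sum_add_distrib]
  exact Finset.sum_congr rfl fun F _ => by ring

end A3h

open A3h in
theorem a3 (h2 : St_A2) : St_A3 := by
  intro V _ _ ρ v D h0 h1 hD
  set g1 : (V → Bool) → ℝ := fun F => D.indicator (fun _ => (1 : ℝ)) (Function.update F v true)
    with hg1
  set g0 : (V → Bool) → ℝ := fun F => D.indicator (fun _ => (1 : ℝ)) (Function.update F v false)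
    with hg0
  have hi1 : ∀ F b, g1 (Function.update F v b) = g1 F := fun F b => by
    simp only [hg1, Function.update_idem]
  have hi0 : ∀ F b, g0 (Function.update F v b) = g0 F := fun F b => by
    simp only [hg0, Function.update_idem]
  have hle : ∀ F, g1 F ≤ g0 F := by
    intro F
    simp only [hg1, hg0]
    by_cases h : Function.update F v true ∈ D
    · have h' : Function.update F v false ∈ D := by
        refine hD _ _ ?_ h
        intro w
        by_cases hw : w = v
        · subst hw
          simp
        · simp [Function.update_of_ne hw]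
      rw [Set.indicator_of_mem h, Set.indicator_of_mem h']
    · rw [Set.indicator_of_notMem h]
      exact Set.indicator_nonneg (fun _ _ => zero_le_one) _
  have e1 := h2 V ρ v (fun b => if b = true then 1 else 0) g1 hi1
  have e0 := h2 V ρ v (fun b => if b = true then 0 else 1) g0 hi0
  have e2 := h2 V ρ v (fun b => if b = true then 1 else 0) g1 hi1
  have p1 : Pr ρ (D ∩ {F | F v = true}) = ρ * Ex ρ g1 := by
    unfold Pr
    have : (fun F : V → Bool => (if F v = true then (1 : ℝ) else 0) * g1 F) =
        (D ∩ {F | F v = true}).indicator fun _ => (1 : ℝ) := by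
      funext F
      by_cases hF : F v = true
      · have hu : Function.update F v true = F := by
          rw [← hF]; exact Function.update_eq_self v F
        rw [if_pos hF, one_mul]
        simp only [hg1, hu]
        by_cases hFD : F ∈ D
        · rw [Set.indicator_of_mem hFD, Set.indicator_of_mem]
          exact ⟨hFD, hF⟩
        · rw [Set.indicator_of_notMem hFD, Set.indicator_of_notMem]
          exact fun h => hFD h.1
      · rw [if_neg hF, zero_mul, Set.indicator_of_notMem]
        exact fun h => hF h.2
    rw [← this, e1]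
    simp
  have p0 : Pr ρ D = ρ * Ex ρ g1 + (1 - ρ) * Ex ρ g0 := by
    unfold Pr
    have : (fun F : V → Bool => (if F v = true then (1 : ℝ) else 0) * g1 F +
        (if F v = true then (0 : ℝ) else 1) * g0 F) = D.indicator fun _ => (1 : ℝ) := by
      funext F
      by_cases hF : F v = true
      · have hu : Function.update F v true = F := by
          rw [← hF]; exact Function.update_eq_self v F
        rw [if_pos hF, if_pos hF, one_mul, zero_mul, add_zero]
        simp only [hg1, hu]
      · have hF' : F v = false := by simpa using hF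
        have hu : Function.update F v false = F := by
          rw [← hF']; exact Function.update_eq_self v F
        rw [if_neg hF, if_neg hF, one_mul, zero_mul, zero_add]
        simp only [hg0, hu]
    rw [← this, Ex_add, e1, e0]
    simp
  rw [p1, p0]
  have h3 := Ex_mono h0 h1 hle
  have h4 : (1 - ρ) * Ex ρ g1 ≤ (1 - ρ) * Ex ρ g0 :=
    mul_le_mul_of_nonneg_left h3 (by linarith)
  refine mul_le_mul_of_nonneg_left ?_ h0
  linarith

end Pool.Agent.H680R3
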