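import Pool.Agent.H257R3.SI.Stubs

/-!
# A9: stars
-/

namespace Pool.Agent.H680R3

open Pool.Agent.H257R3.SI

namespace A9h

variable {V : Type} [Fintype V]

theorem wt_nonneg {ρ : ℝ} (h0 : 0 ≤ ρ) (h1 : ρ ≤ 1) (F : V → Bool) : 0 ≤ wt ρ F := by
  unfold wt
  refine Finset.prod_nonneg fun v _ => ?_
  split
  · exact h0
  · linarith

variable [DecidableEq V]

theorem Ex_mono {ρ : ℝ} (h0 : 0 ≤ ρ) (h1 : ρ ≤ 1) {g g' : (V → Bool) → ℝ}
    (h : ∀ F, g F ≤ g' F) : Ex ρ g ≤ Ex ρ g' := by
  unfold Ex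
  exact Finset.sum_le_sum fun F _ => mul_le_mul_of_nonneg_left (h F) (wt_nonneg h0 h1 F)

end A9h

open A9h in
theorem a9 (h4 : St_A4) : St_A9 := by
  intro V _ _ ρ c ι S a b a0 r h0 h1 hr hS hb ha hc
  obtain ⟨p0, hp0, hmin⟩ := Finset.exists_min_image S (fun p => r (pt (a p) (b p))) hS
  refine (hc p0 hp0).trans ?_
  have hcard : (S.image b).card = S.card := Finset.card_image_of_injOn hb
  have e1 := h4 V ρ (S.image b) (fun x => if x = true then 0 else 1)
  have e2 : Pr ρ (Dn r (a p0) (b p0) ∩ {F | F (a p0) = true}) ≤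
      Ex ρ (fun F => ∏ v ∈ S.image b, if F v = true then (0 : ℝ) else 1) := by
    unfold Pr
    refine Ex_mono h0.le h1 fun F => ?_
    by_cases hF : F ∈ Dn r (a p0) (b p0) ∩ {F | F (a p0) = true}
    · rw [Set.indicator_of_mem hF]
      refine le_of_eq (Finset.prod_eq_one fun v hv => ?_).symm
      obtain ⟨p, hp, rfl⟩ := Finset.mem_image.1 hv
      rw [if_neg]
      intro hFb
      have hFa : F (a p) = true := by
        rw [ha p hp, ← ha p0 hp0]
        exact hF.2
      have hle : pt (a p) (b p) ≤ F := by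
        intro v
        unfold pt
        by_cases hv : v = a p ∨ v = b p
        · rcases hv with rfl | rfl
          · rw [hFa]; exact le_top
          · rw [hFb]; exact le_top
        · rw [decide_eq_false hv]; exact bot_le
      have h5 := hr hle
      have h6 := hmin p hp
      have h7 : r F < r (pt (a p0) (b p0)) := hF.1
      exact absurd (h7.trans_le (h6.trans h5)) (lt_irrefl _)
    · rw [Set.indicator_of_notMem hF]
      refine Finset.prod_nonneg fun v _ => ?_
      split <;> norm_num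
  refine e2.trans ?_
  rw [e1, hcard]
  have e3 : ρ * (if true = true then (0 : ℝ) else 1) + (1 - ρ) *
      (if false = true then (0 : ℝ) else 1) = 1 - ρ := by simp
  rw [e3]
  have e4 : 1 - ρ ≤ Real.exp (-ρ) := Real.one_sub_le_exp_neg ρ
  calc (1 - ρ) ^ S.card ≤ (Real.exp (-ρ)) ^ S.card := pow_le_pow_left₀ (by linarith) e4 _
    _ = Real.exp (-(ρ * S.card)) := by
      rw [← Real.exp_nat_mul]
      congr 1
      ring

end Pool.Agent.H680R3
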